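import Pool.Agent.H628R2.Forb.PolyS
import Pool.Agent.H628R2.FPTW

set_option autoImplicit false

namespace Pool.Agent.NPC.H628F

open Pool.Agent.H628R2.Forb

theorem u_MM {α : Type} [TEnc α] {t : α → ℕ} (ht : UPoly t) : UPoly (fun a => MM (t a)) := by
  have h2 : UPoly (fun a => 2 * t a) := UPoly.mul (UPoly.const 2) ht
  exact UPoly.mul (UPoly.add h2 (UPoly.const 1)) (UPoly.add (UPoly.add (UPoly.add (UPoly.add
    (u_LL ht) (UPoly.mul h2 (u_GG ht))) h2) ht) (UPoly.const 1))

theorem primrec_MM : Primrec MM := by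
  have hid : Primrec (fun t : ℕ => t) := Primrec.id
  have h1 : Primrec (fun t : ℕ => t + 1) := Primrec.nat_add.comp hid (Primrec.const 1)
  have hL : Primrec (fun t : ℕ => t * (t + 1)) := Primrec.nat_mul.comp hid h1
  have h2 : Primrec (fun t : ℕ => 2 * t) := Primrec.nat_mul.comp (Primrec.const 2) hid
  have hG : Primrec (fun t : ℕ => (t * (t + 1)) * (t * (t + 1)) + 3 * (t * (t + 1)) +
      (t + (t + 1) * (t + 1))) :=
    Primrec.nat_add.comp (Primrec.nat_add.comp (Primrec.nat_mul.comp hL hL)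
      (Primrec.nat_mul.comp (Primrec.const 3) hL))
      (Primrec.nat_add.comp hid (Primrec.nat_mul.comp h1 h1))
  have hM : Primrec (fun t : ℕ => (2 * t + 1) * (t * (t + 1) + 2 * t *
      ((t * (t + 1)) * (t * (t + 1)) + 3 * (t * (t + 1)) + (t + (t + 1) * (t + 1))) +
      2 * t + t + 1)) :=
    Primrec.nat_mul.comp (Primrec.nat_add.comp h2 (Primrec.const 1))
      (Primrec.nat_add.comp (Primrec.nat_add.comp (Primrec.nat_add.comp (Primrec.nat_add.comp
        hL (Primrec.nat_mul.comp h2 hG)) h2) hid) (Primrec.const 1))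
  refine hM.of_eq fun t => ?_
  simp only [MM, LL, GG, pow_two]

lemma ded_length (F : List ℕ) : (ded F).length = F.toFinset.card := by
  have h1 := List.toFinset_card_of_nodup (nodup_ded F)
  rw [← h1]
  congr 1
  ext x
  rw [List.mem_toFinset, List.mem_toFinset, mem_ded]

theorem sched_fpt : ∃ (tm : Turing.FinTM2) (e₀ : tm.Γ tm.k₀ ≃ Bool) (e₁ : tm.Γ tm.k₁ ≃ Bool)
    (f : ℕ → ℕ) (c : ℕ), Computable f ∧ ∀ p F : List ℕ,
      Nonempty (Turing.TM2OutputsInTime tm ((bits (p, F)).map e₀.invFun)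
        (some ((bits (sched p (ded F))).map e₁.invFun))
        (f F.toFinset.card * ((bits (p, F)).length + 1) ^ c)) := by
  have hd : Poly (fun a : List ℕ × List ℕ => ded a.2) := p_ded p_snd
  have hlen : UPoly (fun a : List ℕ × List ℕ => (ded a.2).length) := UPoly.length hd
  obtain ⟨tm, e₀, e₁, f, c, hf, h⟩ := fpt_tm (fun a : List ℕ × List ℕ => sched a.1 (ded a.2))
    (fun a => (ded a.2).length) MM primrec_MM (u_MM hlen) (by
      have hv := Poly.val (fun x : (List ℕ × List ℕ) × List Unit =>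
        2 ^ (MM (ded x.1.2).length) ≤ x.2.length)
      exact p_sched (Poly.fst (Poly.fst hv)) (hd.comp (Poly.fst hv)) (UPoly.length (Poly.snd hv))
        fun a => a.2)
  refine ⟨tm, e₀, e₁, f, c, hf, fun p F => ?_⟩
  have := h (p, F)
  simp only [ded_length] at this
  exact this

end Pool.Agent.NPC.H628F
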