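import Pool.Agent.H628R2.Forb.PolyF

set_option autoImplicit false

namespace Pool.Agent.NPC.H628F

open Pool.Agent.H628R2.Forb

variable {α β γ : Type} [TEnc α] [TEnc β] [TEnc γ]

theorem p_shift {F : α → List ℕ} {y : α → ℕ} (hF : Poly F) (hy : Poly y) :
    Poly (fun a => shift (F a) (y a)) :=
  Poly.map (F := fun a f => f - y a)
    (Poly.filter (p := fun a f => decide (y a ≤ f)) hF (Poly.decide_le (hy.comp p_fst) p_snd))
    (Poly.sub p_snd (hy.comp p_fst))

theorem p_decAt {F J : α → List ℕ} {y N : α → ℕ} (hF : Poly F) (hy : Poly y) (hJ : Poly J)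
    (hN : UPoly N) (hb : ∀ a, 2 ^ (MM (F a).length) ≤ N a) :
    Poly (fun a => decAt (F a) (y a) (J a)) :=
  p_dec hJ (p_shift hF hy) hN fun a =>
    le_trans (Nat.pow_le_pow_right (by norm_num) (MM_mono (shift_length _ _))) (hb a)

theorem p_fst0 {F : α → List ℕ} (hF : Poly F) : Poly (fun a => fst0 (F a)) :=
  Poly.head?_getD (Poly.filter (p := fun a s => !decide (s ∈ F a))
    (UPoly.range (UPoly.add (UPoly.length hF) (UPoly.const 1)))
    (Poly.not (Poly.decide_mem p_snd (hF.comp p_fst)))) 0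

theorem p_cands {p F : α → List ℕ} {N : α → ℕ} (hp : Poly p) (hF : Poly F)
    (hN : UPoly N) (hb : ∀ a, 2 ^ (MM (F a).length) ≤ N a) :
    Poly (fun a => cands (p a) (F a)) := by
  have h2t : UPoly (fun a => 2 * (F a).length) := UPoly.mul (UPoly.const 2) (UPoly.length hF)
  have hr : Poly (fun a => rng1 (2 * (F a).length)) :=
    Poly.map (F := fun _ i => i + 1) h2t.range (Poly.succ p_snd)
  refine Poly.filter (p := fun a Z => decAt (F a) (fst0 (F a)) (p a ++ Z))
    (p_enum hr h2t hN ?_) ?_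
  · intro a
    refine le_trans (pow_le_MM (t := (F a).length) ?_ (by omega)) (hb a)
    simp [rng1]
  · exact p_decAt (hF.comp p_fst) ((p_fst0 hF).comp p_fst) (Poly.append (hp.comp p_fst) p_snd)
      (UPoly.comp hN p_fst) fun a => hb a.1

theorem p_goodZ {p F : α → List ℕ} {N : α → ℕ} (hp : Poly p) (hF : Poly F)
    (hN : UPoly N) (hb : ∀ a, 2 ^ (MM (F a).length) ≤ N a) :
    Poly (fun a => goodZ (p a) (F a)) := by
  have hc := p_cands hp hF hN hb
  have h1 : Poly (fun x : α × List ℕ =>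
      (cands (p x.1) (F x.1)).all (fun Z' => decide (x.2.sum ≤ Z'.sum))) :=
    Poly.all (p := fun (a : α × List ℕ) Z' => decide (a.2.sum ≤ Z'.sum)) (hc.comp p_fst)
      (Poly.decide_le (Poly.sum (Poly.snd p_fst)) (Poly.sum p_snd))
  have h2 : Poly (fun a => (cands (p a) (F a)).filter
      (fun Z => (cands (p a) (F a)).all (fun Z' => decide (Z.sum ≤ Z'.sum)))) :=
    Poly.filter (p := fun a Z => (cands (p a) (F a)).all (fun Z' => decide (Z.sum ≤ Z'.sum))) hc h1
  have h3 := Poly.head?_getD h2 []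
  exact h3

theorem p_pick {F : α → List ℕ} {W : α → List (ℕ × ℕ)} {y N : α → ℕ} (hF : Poly F) (hW : Poly W)
    (hy : Poly y) (hN : UPoly N) (hb : ∀ a, 2 ^ (MM (F a).length) ≤ N a) :
    Poly (fun a => pick (F a) (W a) (y a)) := by
  refine Poly.head? (Poly.filter (p := fun a w => !decide (y a + w.1 ∈ F a) &&
    decAt (F a) (y a + w.1) (((W a).filter (fun v => !decide (v = w))).map (fun v => v.1))) hW ?_)
  have h1 : Poly (fun x : α × ℕ × ℕ => y x.1 + x.2.1) := Poly.add (hy.comp p_fst) (Poly.fst p_snd)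
  refine Poly.and (Poly.not (Poly.decide_mem h1 (hF.comp p_fst))) ?_
  refine p_decAt (hF.comp p_fst) h1 ?_ (UPoly.comp hN p_fst) fun a => hb a.1
  exact Poly.map (F := fun _ v => v.1)
    (Poly.filter (p := fun (x : α × ℕ × ℕ) v => !decide (v = x.2)) (hW.comp p_fst)
      (Poly.not (Poly.decide_eq p_snd (Poly.snd p_fst)))) (Poly.fst p_snd)

theorem p_tick {F : α → List ℕ} {s : α → List (ℕ × ℕ) × ℕ × List ((ℕ × ℕ) × ℕ)} {N : α → ℕ}
    (hF : Poly F) (hs : Poly s) (hN : UPoly N) (hb : ∀ a, 2 ^ (MM (F a).length) ≤ N a) :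
    Poly (fun a => tick (F a) (s a)) := by
  have h1 : Poly (fun a => (s a).1) := Poly.fst hs
  have h2 : Poly (fun a => (s a).2.1) := Poly.fst (Poly.snd hs)
  have h3 : Poly (fun a => (s a).2.2) := Poly.snd (Poly.snd hs)
  refine (Poly.optCases (o := fun a => pick (F a) (s a).1 (s a).2.1) (g := s)
    (h := fun a w => ((s a).1.filter (fun v => !decide (v = w)), (s a).2.1 + w.1,
      (w, (s a).2.1) :: (s a).2.2)) (p_pick hF h1 h2 hN hb) hs ?_).congr fun a => ?_
  · refine Poly.pair ?_ (Poly.pair (Poly.add (h2.comp p_fst) (Poly.fst p_snd))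
      (Poly.cons (Poly.pair p_snd (h2.comp p_fst)) (h3.comp p_fst)))
    exact Poly.filter (p := fun (x : α × ℕ × ℕ) v => !decide (v = x.2)) (h1.comp p_fst)
      (Poly.not (Poly.decide_eq p_snd (Poly.snd p_fst)))
  · rw [tick]
    cases pick (F a) (s a).1 (s a).2.1 <;> rfl

lemma tick_inv (F : List ℕ) (W : List (ℕ × ℕ)) (y S : ℕ) (hS : ∀ w ∈ W, w.1 ≤ S) (k : ℕ) :
    ((tick F)^[k] (W, y, [])).1.Sublist W ∧
    ((tick F)^[k] (W, y, [])).2.1 ≤ y + k * S ∧
    ((tick F)^[k] (W, y, [])).2.2.length ≤ k ∧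
    ∀ e ∈ ((tick F)^[k] (W, y, [])).2.2, e.1 ∈ W ∧ e.2 ≤ y + k * S := by
  induction k with
  | zero => simp
  | succ k ih =>
    rw [Function.iterate_succ_apply']
    set s := (tick F)^[k] (W, y, []) with hs
    obtain ⟨h1, h2, h3, h4⟩ := ih
    have hmono : y + k * S ≤ y + (k + 1) * S := by
      have := Nat.mul_le_mul_right S (by omega : k ≤ k + 1)
      omega
    rw [tick]
    cases hp : pick F s.1 s.2.1 with
    | none =>
      simp only
      exact ⟨h1, h2.trans hmono, by omega, fun e he => ⟨(h4 e he).1, (h4 e he).2.trans hmono⟩⟩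
    | some w =>
      have hwW : w ∈ W := by
        rw [pick] at hp
        exact h1.subset (List.mem_of_mem_filter (List.mem_of_mem_head? hp))
      have hw := hS w hwW
      simp only
      refine ⟨(List.filter_sublist).trans h1, ?_, ?_, ?_⟩
      · have : y + (k + 1) * S = y + k * S + S := by ring
        omega
      · rw [List.length_cons]
        omega
      · intro e he
        simp only [List.mem_cons] at he
        rcases he with rfl | he
        · exact ⟨hwW, h2.trans hmono⟩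
        · exact ⟨(h4 e he).1, (h4 e he).2.trans hmono⟩

theorem p_runW {p F : α → List ℕ} {N : α → ℕ} (hp : Poly p) (hF : Poly F)
    (hN : UPoly N) (hb : ∀ a, 2 ^ (MM (F a).length) ≤ N a) :
    Poly (fun a => runW (p a) (F a)) := by
  have hW : Poly (fun a => (p a ++ goodZ (p a) (F a)).zipIdx) :=
    Poly.zipIdx (Poly.append hp (p_goodZ hp hF hN hb))
  have hy : Poly (fun a => fst0 (F a)) := p_fst0 hF
  have hS : Poly (fun a => fst0 (F a) + ((p a ++ goodZ (p a) (F a)).zipIdx).length *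
      (((p a ++ goodZ (p a) (F a)).zipIdx).map (fun w => w.1)).sum) :=
    Poly.add hy (Poly.mul (Poly.length hW)
      (Poly.sum (Poly.map (F := fun _ w => w.1) hW (Poly.fst p_snd))))
  obtain ⟨rW, hrW⟩ := hW.sz_le
  obtain ⟨rS, hrS⟩ := hS.sz_le
  have hs : Poly (fun a => ((p a ++ goodZ (p a) (F a)).zipIdx, fst0 (F a),
      ([] : List ((ℕ × ℕ) × ℕ)))) := Poly.pair hW (Poly.pair hy (Poly.const _))
  refine Poly.snd (Poly.snd (Poly.foldl (l := fun a => (p a ++ goodZ (p a) (F a)).zipIdx)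
    (s := fun a => ((p a ++ goodZ (p a) (F a)).zipIdx, fst0 (F a), ([] : List ((ℕ × ℕ) × ℕ))))
    (F := fun a s _ => tick (F a) s) hW hs
    (p_tick (hF.comp p_fst) (Poly.fst p_snd) (UPoly.comp hN p_fst) fun a => hb a.1)
    (rW + Polynomial.C 2 * rS + rW * (rW + Polynomial.C 2 * rS + Polynomial.C 2) + Polynomial.C 3)
    ?_))
  intro a k hk
  rw [foldl_tick, List.length_take, Nat.min_eq_left hk]
  set W := (p a ++ goodZ (p a) (F a)).zipIdx with hWdef
  set S := (W.map (fun w => w.1)).sum with hSdef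
  have hSle : ∀ w ∈ W, w.1 ≤ S := by
    intro w hw
    exact List.single_le_sum (by simp) _ (List.mem_map_of_mem hw)
  obtain ⟨h1, h2, h3, h4⟩ := tick_inv (F a) W (fst0 (F a)) S hSle k
  set s := (tick (F a))^[k] (W, fst0 (F a), []) with hsdef
  have hkS : fst0 (F a) + k * S ≤ fst0 (F a) + W.length * S := by
    have := Nat.mul_le_mul_right S hk
    omega
  have g0 : sz (fst0 (F a) + W.length * S) ≤ rS.eval (sz a) := hrS a
  have g1 : sz s.1 ≤ rW.eval (sz a) := (sz_sublist h1).trans (hrW a)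
  have g2 : sz s.2.1 ≤ 2 * rS.eval (sz a) := by
    have := sz_nat_mono_le (h2.trans hkS)
    omega
  have g3 : sz s.2.2 ≤ s.2.2.length * (rW.eval (sz a) + 2 * rS.eval (sz a) + 1 + 1) + 1 := by
    apply sz_le_length_mul
    intro e he
    obtain ⟨e1, e2⟩ := h4 e he
    have e3 : sz e = sz e.1 + sz e.2 + 1 := sz_pair e.1 e.2
    have e4 : sz e.1 < sz W := sz_le_of_mem e1
    have e5 : sz W ≤ rW.eval (sz a) := hrW a
    have e6 := sz_nat_mono_le (e2.trans hkS)
    omega
  rw [Nat.add_assoc _ 1 1] at g3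
  have g4 : s.2.2.length ≤ rW.eval (sz a) := by
    have e5 : sz W ≤ rW.eval (sz a) := hrW a
    have e6 := length_lt_sz W
    omega
  have g5 : sz s = sz s.1 + (sz s.2.1 + sz s.2.2 + 1) + 1 := by
    have e1 : sz s = sz s.1 + sz s.2 + 1 := sz_pair s.1 s.2
    have e2 : sz s.2 = sz s.2.1 + sz s.2.2 + 1 := sz_pair s.2.1 s.2.2
    rw [e1, e2]
  have g6 := Nat.mul_le_mul_right (rW.eval (sz a) + 2 * rS.eval (sz a) + (1 + 1)) g4
  simp only [Polynomial.eval_add, Polynomial.eval_mul, Polynomial.eval_C]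
  rw [g5]
  have g7 : (1 + 1 : ℕ) = 2 := rfl
  rw [g7] at g3 g6
  omega

theorem p_sched {p F : α → List ℕ} {N : α → ℕ} (hp : Poly p) (hF : Poly F)
    (hN : UPoly N) (hb : ∀ a, 2 ^ (MM (F a).length) ≤ N a) :
    Poly (fun a => sched (p a) (F a)) := by
  refine Poly.map (F := fun a j => lookup (runW (p a) (F a)) j)
    (UPoly.range (UPoly.length hp)) ?_
  refine Poly.head?_getD (Poly.map (F := fun _ e => e.2)
    (Poly.filter (p := fun (x : α × ℕ) e => decide (e.1.2 = x.2))
      ((p_runW hp hF hN hb).comp p_fst)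
      (Poly.decide_eq (Poly.snd (Poly.fst p_snd)) (Poly.snd p_fst))) (Poly.snd p_snd)) 0

end Pool.Agent.NPC.H628F
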